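import Pool.Agent.Run7.h172.Nls.Log

/-!
# Logarithmically averaged short exponential sums of the Liouville function, frequencies near a null set (MP_f12790_nt)

The bound of Q1, in the full range `H₀ ≤ H ≤ ω ≤ X`, with the supremum over all frequencies in a neighbourhood of an
arbitrary closed null set.
-/

set_option autoImplicit false

open Finset Filter Topology MeasureTheory

namespace Pool.Agent.Results.MP_f12790_nt.NearNullSets

/-- `A_K(H, ω, X)`: the sum over `X/ω ≤ n ≤ X` of `sup |∑_{1 ≤ j ≤ H} h(n+j) e(j α)| / n`, the supremum over the real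
numbers `α` whose class modulo one lies in `K` -/
noncomputable def A (h : ℕ → ℂ) (K : Set UnitAddCircle) (H : ℕ) (ω X : ℝ) : ℝ :=
  ∑ n ∈ Finset.Icc ⌈X / ω⌉₊ ⌊X⌋₊,
    (⨆ α : {α : ℝ // ((α : ℝ) : UnitAddCircle) ∈ K},
      ‖∑ j ∈ Finset.Icc 1 H, h (n + j) * Complex.exp (2 * (Real.pi : ℂ) * Complex.I * (j : ℂ) * ((α.1 : ℝ) : ℂ))‖)
      / (n : ℝ)

/-- the Liouville function -/
noncomputable def lam (n : ℕ) : ℂ := (-1) ^ ArithmeticFunction.cardFactors n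

/-- the Möbius function -/
noncomputable def mu (n : ℕ) : ℂ := ((ArithmeticFunction.moebius n : ℤ) : ℂ)

/-- for each `x` with `1 ≤ x ≤ X₀` the set `K` is covered by at most `η(x) x` arcs of half-length `1 / x` -/
def ThinUpTo (X₀ : ℝ) (η : ℝ → ℝ) (K : Set UnitAddCircle) : Prop :=
  ∀ x : ℝ, 1 ≤ x → x ≤ X₀ → ∃ F : Finset UnitAddCircle, (F.card : ℝ) ≤ η x * x ∧ ∀ z ∈ K, ∃ y ∈ F, ‖z - y‖ ≤ 1 / x

open Pool.Agent.Run7.h172.Nls in
lemma A_eq (h : ℕ → ℂ) (K : Set UnitAddCircle) (H : ℕ) (ω X : ℝ) :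
    A h K H ω X = ∑ n ∈ Icc ⌈X / ω⌉₊ ⌊X⌋₊, (⨆ α : {α : ℝ // ((α : ℝ) : UnitAddCircle) ∈ K},
        ‖∑ i ∈ range H, h (n + 1 + i) * Pool.Agent.H807R2.Dav.ee ((i : ℝ) * α.1)‖) / (n : ℝ) := by
  unfold A
  refine sum_congr rfl fun n _ => ?_
  congr 1
  refine iSup_congr fun α => ?_
  have e1 : Icc 1 H = Ico 1 (1 + H) := by ext n; simp only [mem_Icc, mem_Ico]; omega
  have e2 : ∑ j ∈ Icc 1 H, h (n + j) * Complex.exp (2 * (Real.pi : ℂ) * Complex.I * (j : ℂ) * ((α.1 : ℝ) : ℂ)) =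
      Pool.Agent.H807R2.Dav.ee α.1 * ∑ i ∈ range H, h (n + 1 + i) * Pool.Agent.H807R2.Dav.ee ((i : ℝ) * α.1) := by
    rw [e1, sum_Ico_eq_sum_range, Nat.add_sub_cancel_left, mul_sum]
    refine sum_congr rfl fun i _ => ?_
    have e3 : Complex.exp (2 * (Real.pi : ℂ) * Complex.I * ((1 + i : ℕ) : ℂ) * ((α.1 : ℝ) : ℂ)) =
        Pool.Agent.H807R2.Dav.ee (α.1 + (i : ℝ) * α.1) := by
      unfold Pool.Agent.H807R2.Dav.ee
      congr 1
      push_cast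
      ring
    rw [e3, Pool.Agent.H807R2.Dav.ee_add, ← Nat.add_assoc]
    ring
  rw [e2, norm_mul, norm_ee1, one_mul]

open Pool.Agent.Run7.h172.Nls in
lemma uniform {h : ℕ → ℂ} (hh : h = lam ∨ h = mu) {η : ℝ → ℝ} (hη : Tendsto η atTop (𝓝 0)) (ε : ℝ) (hε : 0 < ε) :
    ∃ (X₀ : ℝ) (H₀ : ℕ), ∀ H : ℕ, H₀ ≤ H → 1 ≤ H → ∀ ω X : ℝ, (H : ℝ) ≤ ω → ω ≤ X →
      ∀ K : Set UnitAddCircle, ThinUpTo X₀ η K → A h K H ω X ≤ ε * H * Real.log ω := by
  simp_rw [A_eq]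
  rcases hh with rfl | rfl
  · exact log_uniform lamC_mul lamC_expo lamC_sup hη ε hε
  · exact log_uniform muC_mul muC_expo muC_sup hη ε hε

/-- **Log-averaged short exponential sums, frequencies near a null set.** Let `h` be the Liouville or the Möbius
function and let `K` be a closed subset of `ℝ/ℤ` of measure zero.
(1) For every `ε > 0` there are `δ > 0` and `H₀` such that `A_U(H, ω, X) ≤ ε H log ω` for all `H₀ ≤ H ≤ ω ≤ X`, where `U`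
is the set of all `α` at distance less than `δ` from `K`; in particular `A_K(H, ω, X) ≤ ε H log ω`.
(2) More generally, for every function `η` with limit zero at infinity and every `ε > 0` there are `X₀` and `H₀` such that
`A_K(H, ω, X) ≤ ε H log ω` for all `H₀ ≤ H ≤ ω ≤ X` and all sets `K` of frequencies (which may depend on `H`, `ω` and
`X`) which are covered by `η(x) x` arcs of half-length `1 / x` for each `x` with `1 ≤ x ≤ X₀`. -/
theorem result (h : ℕ → ℂ) (hh : h = lam ∨ h = mu) :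
    (∀ K : Set UnitAddCircle, IsClosed K → volume K = 0 → ∀ ε : ℝ, 0 < ε →
      ∃ δ : ℝ, 0 < δ ∧ ∃ H₀ : ℕ, ∀ H : ℕ, H₀ ≤ H → 1 ≤ H → ∀ ω X : ℝ, (H : ℝ) ≤ ω → ω ≤ X →
        A h (Metric.thickening δ K) H ω X ≤ ε * H * Real.log ω ∧ A h K H ω X ≤ ε * H * Real.log ω) ∧
    ∀ η : ℝ → ℝ, Tendsto η atTop (𝓝 0) → ∀ ε : ℝ, 0 < ε → ∃ (X₀ : ℝ) (H₀ : ℕ), ∀ H : ℕ, H₀ ≤ H → 1 ≤ H →
      ∀ ω X : ℝ, (H : ℝ) ≤ ω → ω ≤ X → ∀ K : Set UnitAddCircle, ThinUpTo X₀ η K →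
        A h K H ω X ≤ ε * H * Real.log ω := by
  refine ⟨fun K hK h0 ε hε => ?_, fun η hη ε hε => uniform hh hη ε hε⟩
  obtain ⟨η, hη, hthin⟩ := Pool.Agent.Run7.h172.Nls.thin_nhds hK h0
  obtain ⟨X0, H0, hH0⟩ := uniform hh hη ε hε
  obtain ⟨δ, hδ, hδ2⟩ := hthin X0
  refine ⟨δ, hδ, H0, fun H hH hH1 ω X hω hX => ⟨hH0 H hH hH1 ω X hω hX _ hδ2, hH0 H hH hH1 ω X hω hX _ ?_⟩⟩
  intro x hx1 hx2
  obtain ⟨F, hF1, hF2⟩ := hδ2 x hx1 hx2
  exact ⟨F, hF1, fun z hz => hF2 z (Metric.self_subset_thickening hδ K hz)⟩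

end Pool.Agent.Results.MP_f12790_nt.NearNullSets
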